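import Pool.Agent.H41.ET.Defs2

/-!
# The parameters with a power saving (task ET-PARAM2 of helper41)

With `t ^ 150 ≤ d < t ^ 151`: `q = t ^ 27`, `m = t`, `g = t * t`, `θ = t ^ 93`, `h = t`,
`K = t ^ 92`, `ξ = t ^ 61`.
-/

set_option autoImplicit false

namespace Pool.Agent.H769.ET

open Filter

theorem ev_pow (A k : ℕ) : ∀ᶠ t : ℕ in atTop, A * t ^ k ≤ 2 ^ t := by
  have h1 := tendsto_pow_const_div_const_pow_of_one_lt k (show (1 : ℝ) < 2 by norm_num)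
  have h2 : ∀ᶠ t : ℕ in atTop, (t : ℝ) ^ k / 2 ^ t < 1 / (A + 1) :=
    h1.eventually (gt_mem_nhds (by positivity))
  filter_upwards [h2] with t ht
  have h3 : (0 : ℝ) < 2 ^ t := by positivity
  have h4 : (0 : ℝ) < (A : ℝ) + 1 := by positivity
  rw [div_lt_div_iff₀ h3 h4, one_mul] at ht
  have h5 : (A : ℝ) * (t : ℝ) ^ k ≤ 2 ^ t := by
    have h6 : (0 : ℝ) ≤ (t : ℝ) ^ k := by positivity
    nlinarith
  exact_mod_cast h5

theorem fact_ge (t : ℕ) (ht : 9 ≤ t) : 2 ^ t * 2 ^ t ≤ t.factorial := by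
  induction t, ht using Nat.le_induction with
  | base => decide
  | succ t ht ih =>
    rw [Nat.factorial_succ, pow_succ]
    calc 2 ^ t * 2 * (2 ^ t * 2) = 4 * (2 ^ t * 2 ^ t) := by ring
      _ ≤ (t + 1) * t.factorial := Nat.mul_le_mul (by omega) ih

theorem bern (t : ℕ) (ht : 1 ≤ t) : 2 * (t - 1) ^ t ≤ t ^ t := by
  obtain ⟨s, rfl⟩ : ∃ s, t = s + 1 := ⟨t - 1, by omega⟩
  rw [Nat.add_sub_cancel]
  rcases Nat.eq_zero_or_pos s with h0 | h0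
  · subst h0
    norm_num
  · have h1 := one_add_mul_le_pow (R := ℝ) (a := 1 / s) (by
      have : (0 : ℝ) < 1 / s := by positivity
      linarith) (s + 1)
    have hs : (0 : ℝ) < s := by exact_mod_cast h0
    have h2 : (2 : ℝ) ≤ 1 + ((s + 1 : ℕ) : ℝ) * (1 / s) := by
      push_cast
      rw [mul_one_div, add_div, div_self hs.ne']
      have : (0 : ℝ) < 1 / s := by positivity
      linarith
    have h3 : (2 : ℝ) * (s : ℝ) ^ (s + 1) ≤ ((s : ℝ) + 1) ^ (s + 1) := by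
      have h4 : (1 + 1 / (s : ℝ)) * s = s + 1 := by field_simp
      rw [← h4, mul_pow]
      exact mul_le_mul_of_nonneg_right (h2.trans h1) (by positivity)
    exact_mod_cast h3

theorem root (T d : ℕ) (hd : T ^ 150 ≤ d) : ∃ t, T ≤ t ∧ t ^ 150 ≤ d ∧ d < (t + 1) ^ 150 := by
  classical
  have hT : T ≤ d := (Nat.le_self_pow (by norm_num) T).trans hd
  refine ⟨Nat.findGreatest (fun t => t ^ 150 ≤ d) d, Nat.le_findGreatest hT hd,
    Nat.findGreatest_spec (P := fun t => t ^ 150 ≤ d) hT hd, ?_⟩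
  by_contra h
  rw [not_lt] at h
  obtain ⟨s, hs⟩ : ∃ s, s = Nat.findGreatest (fun t => t ^ 150 ≤ d) d := ⟨_, rfl⟩
  rw [← hs] at h
  have h1 : s + 1 ≤ d := (Nat.le_self_pow (by norm_num) (s + 1)).trans h
  have h2 := Nat.le_findGreatest (P := fun t => t ^ 150 ≤ d) h1 h
  omega

theorem rp (t d : ℕ) (h : t ^ 150 ≤ d) : ((t : ℝ)) ^ 125 ≤ (d : ℝ) ^ (5 / 6 : ℝ) := by
  have h3 : ((t : ℝ)) ^ 150 ≤ (d : ℝ) := by exact_mod_cast h
  clear h
  have ht : (0 : ℝ) ≤ (t : ℝ) := Nat.cast_nonneg t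
  have h2 : ((t : ℝ) ^ 150) ^ (5 / 6 : ℝ) = (t : ℝ) ^ 125 := by
    rw [← Real.rpow_natCast, ← Real.rpow_mul ht, ← Real.rpow_natCast]
    norm_num
  rw [← h2]
  exact Real.rpow_le_rpow (pow_nonneg ht 150) h3 (by norm_num)

theorem two_le (t : ℕ) (h : 16 ≤ t) : 2 * t + 2 ≤ 4 * t ^ 2 := by nlinarith

theorem three_le (t : ℕ) (h : 16 ≤ t) : 3 * t ≤ 2 * t ^ 2 := by nlinarith

theorem pp (t k : ℕ) (h : 0 < t) : 0 < t ^ k := Nat.pow_pos h

theorem pq {t a b : ℕ} (h : 0 < t) (hab : a ≤ b) : t ^ a ≤ t ^ b := Nat.pow_le_pow_right h hab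

theorem param2 : Pool.Agent.H41.ET.S_PARAM2 := by
  obtain ⟨T₁, hT₁⟩ := eventually_atTop.1 (ev_pow 64 697)
  obtain ⟨T, hT⟩ : ∃ T, T = max (max T₁ 16) (2 ^ 150) := ⟨_, rfl⟩
  refine ⟨T ^ 150, fun d hd c hc => ?_⟩
  obtain ⟨t, htT, ht1, ht2⟩ := root T d hd
  have hA : T₁ ≤ t := by
    have := (le_max_left T₁ 16).trans (le_max_left (max T₁ 16) (2 ^ 150))
    omega
  have hB : 16 ≤ t := by
    have := (le_max_right T₁ 16).trans (le_max_left (max T₁ 16) (2 ^ 150))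
    omega
  have hC : 2 ^ 150 ≤ t := by
    have := le_max_right (max T₁ 16) (2 ^ 150)
    omega
  have hexp : 64 * t ^ 697 ≤ 2 ^ t := hT₁ t hA
  have ht0 : 0 < t := by omega
  have hd3 : d < t ^ 151 := by
    calc d < (t + 1) ^ 150 := ht2
      _ ≤ (2 * t) ^ 150 := Nat.pow_le_pow_left (by omega) _
      _ = 2 ^ 150 * t ^ 150 := mul_pow _ _ _
      _ ≤ t * t ^ 150 := Nat.mul_le_mul_right _ hC
      _ = t ^ 151 := by ring
  have hd1 : 1 ≤ d := le_trans (Nat.one_le_pow _ _ ht0) ht1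
  -- c
  have hc1 : c + t ^ 125 ≤ 2 * d := by
    have h1 := rp t d ht1
    have h3 : (c : ℝ) + (t : ℝ) ^ 125 ≤ 2 * d := by linarith
    exact_mod_cast h3
  have hc2 : c ≤ 2 * d := by omega
  refine ⟨t ^ 27, t, t * t, t ^ 93, t, t ^ 92, t ^ 61, Nat.one_le_pow _ _ ht0, ht0,
    ?_, ?_, ?_, ?_, ?_, ?_, ?_, ?_⟩
  · -- i1
    have h1 : t ^ 453 ≤ t ^ 697 := pq ht0 (by norm_num)
    calc 4 * (2 * d) * c * (d + 1) ≤ 4 * (2 * d) * (2 * d) * (d + d) := by gcongr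
      _ = 32 * (d * d * d) := by ring
      _ ≤ 32 * (t ^ 151 * t ^ 151 * t ^ 151) := by gcongr
      _ = 32 * t ^ 453 := by ring
      _ ≤ 64 * t ^ 697 := by omega
      _ ≤ 2 ^ t := hexp
      _ ≤ 2 ^ (t + 1) := Nat.pow_le_pow_right (by norm_num) (by omega)
  · -- i2
    have h1 : 4 * (2 * d) * c * (2 * d) * t ^ 93 * (d + 1) ≤ 2 ^ t := by
      calc 4 * (2 * d) * c * (2 * d) * t ^ 93 * (d + 1) ≤
          4 * (2 * d) * (2 * d) * (2 * d) * t ^ 93 * (d + d) := by gcongr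
        _ = 64 * (d * d * d * d * t ^ 93) := by ring
        _ ≤ 64 * (t ^ 151 * t ^ 151 * t ^ 151 * t ^ 151 * t ^ 93) := by gcongr
        _ = 64 * t ^ 697 := by ring
        _ ≤ 2 ^ t := hexp
    calc 4 * (2 * d) * c * (2 * d) * t ^ 93 * (d + 1) * (t - 1) ^ (t * t) ≤
        2 ^ t * (t - 1) ^ (t * t) := Nat.mul_le_mul_right _ h1
      _ = (2 * (t - 1) ^ t) ^ t := by rw [mul_pow, pow_mul]
      _ ≤ (t ^ t) ^ t := Nat.pow_le_pow_left (bern t ht0) _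
      _ = t ^ (t * t) := (pow_mul t t t).symm
  · -- i3
    have h1 : t ^ 453 ≤ t ^ 697 := pq ht0 (by norm_num)
    have h2 : 4 * c * (2 * d) ^ 2 ≤ 2 ^ t := by
      calc 4 * c * (2 * d) ^ 2 ≤ 4 * (2 * d) * (2 * d) ^ 2 := by gcongr
        _ = 32 * (d * d * d) := by ring
        _ ≤ 32 * (t ^ 151 * t ^ 151 * t ^ 151) := by gcongr
        _ = 32 * t ^ 453 := by ring
        _ ≤ 64 * t ^ 697 := by omega
        _ ≤ 2 ^ t := hexp
    exact (Nat.mul_le_mul_right _ h2).trans (fact_ge t (by omega))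
  · -- i3'
    have h1 : t ^ 2 ≤ t ^ 150 := pq ht0 (by norm_num)
    have h2 := three_le t hB
    omega
  · -- i5
    rw [Nat.le_div_iff_mul_le (pp _ _ (pp _ _ ht0))]
    have h1 : 1 ≤ t ^ 149 := Nat.one_le_pow _ _ ht0
    have h2 : t ^ 54 ≤ t ^ 149 := pq ht0 (by norm_num)
    calc (2 * t ^ 93 * (t * t) + 1) * (t ^ 27) ^ 2 = 2 * t ^ 149 + t ^ 54 := by ring
      _ ≤ 16 * t ^ 149 := by omega
      _ ≤ t * t ^ 149 := Nat.mul_le_mul_right _ hB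
      _ = t ^ 150 := by ring
      _ ≤ 2 * d := by omega
  · -- i6
    have h1 : 1 ≤ t ^ 152 := Nat.one_le_pow _ _ ht0
    calc 4 * t * c ≤ 4 * t * (2 * d) := by gcongr
      _ ≤ 4 * t * (2 * t ^ 151) := by gcongr
      _ = 8 * t ^ 152 := by ring
      _ < 16 * t ^ 152 := by omega
      _ ≤ t * t ^ 152 := Nat.mul_le_mul_right _ hB
      _ = t ^ 61 * t ^ 92 := by ring
  · -- i7
    have h1 : 2 * d / t ^ 27 ≤ 2 * t ^ 124 := by
      apply Nat.div_le_of_le_mul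
      calc 2 * d ≤ 2 * t ^ 151 := by omega
        _ = t ^ 27 * (2 * t ^ 124) := by ring
    have h2 : (t ^ 61) ^ 2 * (2 * t + 2) ≤ 4 * t ^ 124 := by
      have h3 : 2 * t + 2 ≤ 4 * t ^ 2 := two_le t hB
      calc (t ^ 61) ^ 2 * (2 * t + 2) ≤ (t ^ 61) ^ 2 * (4 * t ^ 2) := Nat.mul_le_mul_left _ h3
        _ = 4 * t ^ 124 := by ring
    have h3 : 1 ≤ t ^ 124 := Nat.one_le_pow _ _ ht0
    have h4 : 16 * t ^ 124 ≤ t ^ 125 := by
      calc 16 * t ^ 124 ≤ t * t ^ 124 := Nat.mul_le_mul_right _ hB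
        _ = t ^ 125 := by ring
    omega
  · -- i8
    have h1 : t ≤ t ^ 92 := Nat.le_self_pow (by norm_num) t
    have h2 : t ^ 61 ≤ t ^ 92 := pq ht0 (by norm_num)
    calc 2 * t + 2 * t ^ 61 + 2 * t ^ 92 ≤ 16 * t ^ 92 := by omega
      _ ≤ t * t ^ 92 := Nat.mul_le_mul_right _ hB
      _ = t ^ 93 := by ring

end Pool.Agent.H769.ET
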